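import Mathlib

section

/-!
# Asymptotic expansions and algebraic closedness of convergent power series

`Asym f x0 c` says that `f` has the asymptotic expansion `∑ cⱼ (x - x0)^j` at `x0`.
The main lemma `core` says: if `G` has an asymptotic expansion at `x0`, `ψ` is analytic and not
locally constant at `G x0`, and `ψ ∘ G` agrees to infinite order with an analytic function, then so
does `G`.
-/

namespace Pool.Agent.Lib.MP_30394b_an

open Filter Topology Asymptotics Set
open scoped ContDiff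

/-- `f` has the asymptotic expansion `∑ cⱼ (x - x0)^j` at `x0` -/
def Asym (f : ℝ → ℝ) (x0 : ℝ) (c : ℕ → ℝ) : Prop :=
  ∀ n : ℕ, (fun x => f x - ∑ j ∈ Finset.range n, c j * (x - x0) ^ j) =O[𝓝 x0]
    fun x => (x - x0) ^ n

/-- `f` vanishes to infinite order at `x0` -/
def Flat (f : ℝ → ℝ) (x0 : ℝ) : Prop := ∀ n : ℕ, f =O[𝓝 x0] fun x => (x - x0) ^ n

theorem tendsto_pow_sub (x0 : ℝ) {n : ℕ} (hn : n ≠ 0) :
    Tendsto (fun x => (x - x0) ^ n) (𝓝 x0) (𝓝 0) := by
  have : ContinuousAt (fun x => (x - x0) ^ n) x0 := by fun_prop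
  have h := this.tendsto
  simpa [sub_self, zero_pow hn] using h

theorem tendsto_pow_sub' (x0 : ℝ) {n : ℕ} (hn : n ≠ 0) :
    Tendsto (fun x => (x - x0) ^ n) (𝓝[≠] x0) (𝓝 0) :=
  (tendsto_pow_sub x0 hn).mono_left nhdsWithin_le_nhds

theorem ne_zero_punctured (x0 : ℝ) : ∀ᶠ x in 𝓝[≠] x0, x - x0 ≠ 0 := by
  filter_upwards [self_mem_nhdsWithin] with x hx
  exact sub_ne_zero.2 hx

/-- cancellation of a power in a `O` estimate -/
theorem cancel_pow {x0 : ℝ} {r : ℝ → ℝ} {p n : ℕ}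
    (h : (fun x => (x - x0) ^ p * r x) =O[𝓝[≠] x0] fun x => (x - x0) ^ (p + n)) :
    r =O[𝓝[≠] x0] fun x => (x - x0) ^ n := by
  obtain ⟨C, hC⟩ := h.bound
  refine IsBigO.of_bound C ?_
  filter_upwards [hC, ne_zero_punctured x0] with x hx hx0
  have hpos : 0 < ‖(x - x0) ^ p‖ := norm_pos_iff.2 (pow_ne_zero _ hx0)
  rw [norm_mul, pow_add, norm_mul] at hx
  have h2 : ‖(x - x0) ^ p‖ * ‖r x‖ ≤ ‖(x - x0) ^ p‖ * (C * ‖(x - x0) ^ n‖) := by linarith
  exact le_of_mul_le_mul_left h2 hpos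

theorem tendsto_zero_of_isBigO {x0 : ℝ} {r : ℝ → ℝ}
    (h : r =O[𝓝[≠] x0] fun x => (x - x0) ^ 1) : Tendsto r (𝓝[≠] x0) (𝓝 0) :=
  h.trans_tendsto (tendsto_pow_sub' x0 one_ne_zero)

/-- uniqueness of asymptotic expansions -/
theorem Asym.unique {f : ℝ → ℝ} {x0 : ℝ} {c d : ℕ → ℝ} (hc : Asym f x0 c) (hd : Asym f x0 d) :
    c = d := by
  funext n
  induction n using Nat.strong_induction_on with
  | _ n ih =>
    have h1 := hc (n + 1)
    have h2 := hd (n + 1)
    have h3 := h2.sub h1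
    have e : ∀ x, f x - ∑ j ∈ Finset.range (n + 1), d j * (x - x0) ^ j -
        (f x - ∑ j ∈ Finset.range (n + 1), c j * (x - x0) ^ j) = (x - x0) ^ n * (c n - d n) := by
      intro x
      rw [Finset.sum_range_succ, Finset.sum_range_succ]
      have : ∑ j ∈ Finset.range n, c j * (x - x0) ^ j = ∑ j ∈ Finset.range n, d j * (x - x0) ^ j :=
        Finset.sum_congr rfl fun j hj => by rw [ih j (Finset.mem_range.1 hj)]
      rw [this]; ring
    simp_rw [e] at h3
    have h4 : (fun _ : ℝ => c n - d n) =O[𝓝[≠] x0] fun x => (x - x0) ^ 1 :=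
      cancel_pow (h3.mono nhdsWithin_le_nhds)
    have h5 := tendsto_zero_of_isBigO h4
    have h6 := tendsto_nhds_unique h5 tendsto_const_nhds
    linarith

theorem Asym.congr_flat {f g : ℝ → ℝ} {x0 : ℝ} {c : ℕ → ℝ} (hc : Asym f x0 c)
    (h : Flat (fun x => f x - g x) x0) : Asym g x0 c := by
  intro n
  have h1 := (hc n).sub (h n)
  refine h1.congr_left fun x => ?_
  ring

theorem Asym.flat_sub {f g : ℝ → ℝ} {x0 : ℝ} {c : ℕ → ℝ} (hf : Asym f x0 c)
    (hg : Asym g x0 c) : Flat (fun x => f x - g x) x0 := by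
  intro n
  have h1 := (hf n).sub (hg n)
  refine h1.congr_left fun x => ?_
  ring

/-- smooth functions have an asymptotic expansion -/
theorem asym_of_contDiff {f : ℝ → ℝ} (hf : ContDiff ℝ ∞ f) (x0 : ℝ) :
    Asym f x0 (fun j => iteratedDeriv j f x0 / j.factorial) := by
  intro n
  have hn : ContDiff ℝ n f := hf.of_le (by exact_mod_cast le_top)
  have h1 := (taylor_isLittleO_univ (x₀ := x0) hn).isBigO
  have e : ∀ x, taylorWithinEval f n univ x0 x =
      ∑ j ∈ Finset.range (n + 1), (iteratedDeriv j f x0 / j.factorial) * (x - x0) ^ j := by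
    intro x
    rw [taylor_within_apply]
    refine Finset.sum_congr rfl fun j _ => ?_
    rw [iteratedDerivWithin_univ, smul_eq_mul]
    ring
  simp_rw [e] at h1
  have h2 : (fun x => (iteratedDeriv n f x0 / n.factorial) * (x - x0) ^ n) =O[𝓝 x0]
      fun x => (x - x0) ^ n := (isBigO_refl _ _).const_mul_left _
  refine (h1.add h2).congr_left fun x => ?_
  rw [Finset.sum_range_succ]
  ring

/-- analytic functions have an asymptotic expansion with geometrically bounded coefficients -/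
theorem asym_of_analyticAt {f : ℝ → ℝ} {x0 : ℝ} (hf : AnalyticAt ℝ f x0) :
    ∃ c : ℕ → ℝ, Asym f x0 c ∧ ∃ C M : ℝ, 0 < M ∧ ∀ n, |c n| ≤ C * M ^ n := by
  obtain ⟨p, hp⟩ := hf
  refine ⟨p.coeff, ?_, ?_⟩
  · intro n
    have h1 := hp.isBigO_sub_partialSum_pow n
    have ht : Tendsto (fun x => x - x0) (𝓝 x0) (𝓝 0) := by
      have : ContinuousAt (fun x => x - x0) x0 := by fun_prop
      simpa using this.tendsto
    have h2 := h1.comp_tendsto ht
    have h3 : ((fun y => ‖y‖ ^ n) ∘ fun x => x - x0) = fun x => ‖(x - x0) ^ n‖ := by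
      funext x; simp
    rw [h3, isBigO_norm_right] at h2
    refine h2.congr_left fun x => ?_
    simp only [Function.comp_apply, add_sub_cancel, FormalMultilinearSeries.partialSum]
    congr 1
    refine Finset.sum_congr rfl fun j _ => ?_
    rw [FormalMultilinearSeries.apply_eq_prod_smul_coeff]
    simp [mul_comm]
  · obtain ⟨r, hr⟩ := hp
    obtain ⟨r', hr'0, hr'⟩ := ENNReal.lt_iff_exists_nnreal_btwn.1 hr.r_pos
    have hr'1 : (0 : NNReal) < r' := by exact_mod_cast hr'0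
    obtain ⟨C, hC, hb⟩ := p.norm_mul_pow_le_of_lt_radius (lt_of_lt_of_le hr' hr.r_le)
    refine ⟨C, (r' : ℝ)⁻¹, by positivity, fun n => ?_⟩
    have h1 := hb n
    have h2 : |p.coeff n| ≤ ‖p n‖ := by
      rw [FormalMultilinearSeries.norm_apply_eq_norm_coef, Real.norm_eq_abs]
    have h3 : (0 : ℝ) < (r' : ℝ) ^ n := by positivity
    calc |p.coeff n| ≤ ‖p n‖ := h2
      _ = ‖p n‖ * (r' : ℝ) ^ n * ((r' : ℝ) ^ n)⁻¹ := by field_simp
      _ ≤ C * ((r' : ℝ) ^ n)⁻¹ := mul_le_mul_of_nonneg_right h1 (by positivity)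
      _ = C * (r' : ℝ)⁻¹ ^ n := by rw [inv_pow]

/-- geometrically bounded coefficients are the expansion of an analytic function -/
theorem exists_analyticAt_of_bound (x0 : ℝ) {c : ℕ → ℝ} {C M : ℝ} (hM : 0 < M)
    (hc : ∀ n, |c n| ≤ C * M ^ n) :
    ∃ A : ℝ → ℝ, AnalyticAt ℝ A x0 ∧ Asym A x0 c := by
  set p : FormalMultilinearSeries ℝ ℝ ℝ := FormalMultilinearSeries.ofScalars ℝ c with hp
  have hnorm : ∀ n, ‖p n‖ ≤ |c n| := by
    intro n
    have := FormalMultilinearSeries.ofScalars_norm (E := ℝ) c n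
    rw [hp, this, Real.norm_eq_abs]
  have hrad : 0 < p.radius := by
    have h1 : (((M⁻¹).toNNReal : NNReal) : ENNReal) ≤ p.radius := by
      refine p.le_radius_of_bound C fun n => ?_
      rw [Real.coe_toNNReal _ (by positivity)]
      calc ‖p n‖ * M⁻¹ ^ n ≤ (C * M ^ n) * M⁻¹ ^ n :=
            mul_le_mul_of_nonneg_right ((hnorm n).trans (hc n)) (by positivity)
        _ = C := by rw [mul_assoc, ← mul_pow, mul_inv_cancel₀ hM.ne', one_pow, mul_one]
    refine lt_of_lt_of_le ?_ h1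
    have : 0 < (M⁻¹).toNNReal := Real.toNNReal_pos.2 (by positivity)
    exact_mod_cast this
  have hball := p.hasFPowerSeriesOnBall hrad
  have hat : HasFPowerSeriesAt (fun x => p.sum (x - x0)) p x0 := by
    have h0 : HasFPowerSeriesAt p.sum p 0 := hball.hasFPowerSeriesAt
    have := h0.comp_sub x0
    simpa using this
  refine ⟨fun x => p.sum (x - x0), ⟨p, hat⟩, ?_⟩
  intro n
  have h1 := hat.isBigO_sub_partialSum_pow n
  have ht : Tendsto (fun x => x - x0) (𝓝 x0) (𝓝 0) := by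
    have : ContinuousAt (fun x => x - x0) x0 := by fun_prop
    simpa using this.tendsto
  have h2 := h1.comp_tendsto ht
  have h3 : ((fun y => ‖y‖ ^ n) ∘ fun x => x - x0) = fun x => ‖(x - x0) ^ n‖ := by
    funext x; simp
  rw [h3, isBigO_norm_right] at h2
  refine h2.congr_left fun x => ?_
  simp only [Function.comp_apply, add_sub_cancel, FormalMultilinearSeries.partialSum]
  congr 1
  refine Finset.sum_congr rfl fun j _ => ?_
  rw [hp, FormalMultilinearSeries.ofScalars_apply_eq]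
  simp

end Pool.Agent.Lib.MP_30394b_an
end

section

/-!
# The core lemma: convergent power series are algebraically closed in formal power series
-/

namespace Pool.Agent.Lib.MP_30394b_an

open Filter Topology Asymptotics Set
open scoped ContDiff

/-- a quantity that equals `(x - x0)^p q x` with `q` having a nonzero limit is not
`O((x - x0)^(p+1))` -/
theorem not_isBigO_of_limit {x0 q0 : ℝ} {q : ℝ → ℝ} {p : ℕ} (hq : Tendsto q (𝓝[≠] x0) (𝓝 q0))
    (hq0 : q0 ≠ 0) :
    ¬ (fun x => (x - x0) ^ p * q x) =O[𝓝[≠] x0] fun x => (x - x0) ^ (p + 1) := by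
  intro h
  have h1 := tendsto_zero_of_isBigO (cancel_pow h)
  exact hq0 (tendsto_nhds_unique hq h1)

theorem exponents_eq {x0 q0 a0 : ℝ} {q a : ℝ → ℝ} {p N : ℕ}
    (hq : Tendsto q (𝓝[≠] x0) (𝓝 q0)) (hq0 : q0 ≠ 0)
    (ha : Tendsto a (𝓝[≠] x0) (𝓝 a0)) (ha0 : a0 ≠ 0)
    (h : ∀ n : ℕ, (fun x => (x - x0) ^ p * q x - (x - x0) ^ N * a x) =O[𝓝[≠] x0]
      fun x => (x - x0) ^ n) : p = N := by
  have aux : ∀ {p N : ℕ} {q a : ℝ → ℝ} {q0 a0 : ℝ}, Tendsto q (𝓝[≠] x0) (𝓝 q0) →
      Tendsto a (𝓝[≠] x0) (𝓝 a0) → a0 ≠ 0 → N < p →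
      ¬ (fun x => (x - x0) ^ p * q x - (x - x0) ^ N * a x) =O[𝓝[≠] x0]
      fun x => (x - x0) ^ (N + 1) := by
    intro p N q a q0 a0 hq ha ha0 hlt hO
    refine not_isBigO_of_limit ha ha0 (p := N) ?_
    have h1 : (fun x => (x - x0) ^ p * q x) =O[𝓝[≠] x0] fun x => (x - x0) ^ (N + 1) := by
      obtain ⟨k, rfl⟩ : ∃ k, p = (N + 1) + k := ⟨p - (N + 1), by omega⟩
      have h2 : q =O[𝓝[≠] x0] fun _ => (1 : ℝ) := hq.isBigO_one ℝ
      have h3 : (fun x => (x - x0) ^ k) =O[𝓝[≠] x0] fun _ => (1 : ℝ) := by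
        have : ContinuousAt (fun x => (x - x0) ^ k) x0 := by fun_prop
        exact (this.tendsto.mono_left nhdsWithin_le_nhds).isBigO_one ℝ
      have h4 := ((isBigO_refl (fun x => (x - x0) ^ (N + 1)) (𝓝[≠] x0)).mul (h3.mul h2))
      refine (h4.congr_left fun x => ?_).congr_right fun x => ?_
      · rw [pow_add]; ring
      · ring
    refine (h1.sub hO).congr_left fun x => ?_
    ring
  rcases lt_trichotomy p N with hlt | heq | hgt
  · exfalso
    refine aux (p := N) (N := p) ha hq hq0 hlt ?_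
    refine (h (p + 1)).neg_left.congr_left fun x => ?_
    ring
  · exact heq
  · exfalso
    exact aux hq ha ha0 hgt (h (N + 1))

/-- **Core lemma.** -/
theorem core {G ψ A : ℝ → ℝ} {x0 : ℝ} {c : ℕ → ℝ} (hG : Asym G x0 c)
    (hψ : AnalyticAt ℝ ψ (G x0)) (hnc : ¬ ∀ᶠ y in 𝓝 (G x0), ψ y = ψ (G x0))
    (hA : AnalyticAt ℝ A x0) (hflat : Flat (fun x => ψ (G x) - A x) x0) :
    ∃ B : ℝ → ℝ, AnalyticAt ℝ B x0 ∧ Flat (fun x => G x - B x) x0 := by
  set y0 : ℝ := G x0 with hy0
  have hc0 : c 0 = y0 := by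
    have h := (hG 1).eq_zero_imp.self_of_nhds (by simp)
    simp at h
    linarith
  by_cases hall : ∀ j, 1 ≤ j → c j = 0
  · -- `G` is flat up to a constant
    refine ⟨fun _ => y0, analyticAt_const, ?_⟩
    intro n
    have h1 := hG (n + 1)
    have e : ∀ x, ∑ j ∈ Finset.range (n + 1), c j * (x - x0) ^ j = y0 := by
      intro x
      rw [Finset.sum_range_succ', Finset.sum_eq_zero]
      · simp [hc0]
      · intro j _
        rw [hall (j + 1) (by omega), zero_mul]
    simp_rw [e] at h1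
    refine h1.trans ?_
    have h3 : (fun x => (x - x0) ^ 1) =O[𝓝 x0] fun _ => (1 : ℝ) := by
      have : ContinuousAt (fun x => (x - x0) ^ 1) x0 := by fun_prop
      exact this.tendsto.isBigO_one ℝ
    have h4 := (isBigO_refl (fun x => (x - x0) ^ n) (𝓝 x0)).mul h3
    refine (h4.congr_left fun x => ?_).congr_right fun x => ?_
    · rw [pow_add]
    · ring
  push Not at hall
  -- the order of `G - y0`
  classical
  let m := Nat.find hall
  have hm1 : 1 ≤ m := (Nat.find_spec hall).1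
  have hmc : c m ≠ 0 := (Nat.find_spec hall).2
  have hmin : ∀ j, 1 ≤ j → j < m → c j = 0 := by
    intro j hj1 hj2
    have := Nat.find_min hall hj2
    push Not at this
    exact this hj1
  have hm0 : m ≠ 0 := by omega
  -- the quotient `g`
  let g : ℝ → ℝ := fun x => if x = x0 then c m else (G x - y0) / (x - x0) ^ m
  have hg0 : g x0 = c m := by simp [g]
  have hg : ∀ x, (x - x0) ^ m * g x = G x - y0 := by
    intro x
    by_cases hx : x = x0
    · rw [hx, sub_self, zero_pow hm0, zero_mul, ← hy0, sub_self]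
    · have : (x - x0) ^ m ≠ 0 := pow_ne_zero _ (sub_ne_zero.2 hx)
      simp only [g, if_neg hx]
      field_simp
  have hgO : (fun x => g x - c m) =O[𝓝[≠] x0] fun x => (x - x0) ^ 1 := by
    refine cancel_pow (p := m) ?_
    have h1 := (hG (m + 1)).mono (nhdsWithin_le_nhds (s := {x0}ᶜ))
    refine h1.congr_left fun x => ?_
    have e : ∑ j ∈ Finset.range (m + 1), c j * (x - x0) ^ j = y0 + c m * (x - x0) ^ m := by
      rw [Finset.sum_range_succ]
      congr 1
      obtain ⟨k, hk⟩ : ∃ k, m = k + 1 := ⟨m - 1, by omega⟩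
      rw [hk, Finset.sum_range_succ', Finset.sum_eq_zero]
      · simp [hc0]
      · intro j hj
        rw [hmin (j + 1) (by omega) (by have := Finset.mem_range.1 hj; omega), zero_mul]
    rw [e, mul_sub, hg]
    ring
  have hgt : Tendsto g (𝓝[≠] x0) (𝓝 (c m)) := by
    have := (tendsto_zero_of_isBigO hgO).add_const (c m)
    simpa using this
  have hgc : ContinuousAt g x0 := by
    rw [← continuousWithinAt_compl_self, ContinuousWithinAt, hg0]
    exact hgt
  have hGc : ContinuousAt G x0 := by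
    have h1 : G = fun x => y0 + (x - x0) ^ m * g x := by
      funext x; rw [hg]; ring
    rw [h1]
    fun_prop
  -- order of `ψ - ψ y0` at `y0`
  have hf1 : AnalyticAt ℝ (fun y => ψ y - ψ y0) y0 := hψ.sub analyticAt_const
  obtain ⟨k, u, hu, hu0, hku⟩ := hf1.exists_eventuallyEq_pow_smul_nonzero_iff.2 (by
    intro h
    exact hnc (h.mono fun y hy => sub_eq_zero.1 hy))
  have hk0 : k ≠ 0 := by
    rintro rfl
    have := hku.self_of_nhds
    simp at this
    exact hu0 this.symm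
  -- q
  set q : ℝ → ℝ := fun x => g x ^ k * u (G x) with hqdef
  have hGt : Tendsto G (𝓝 x0) (𝓝 y0) := hGc.tendsto
  have hψG : ∀ᶠ x in 𝓝 x0, ψ (G x) - ψ y0 = (x - x0) ^ (m * k) * q x := by
    filter_upwards [hGt.eventually hku] with x hx
    rw [hx, ← hg x, smul_eq_mul, hqdef, pow_mul]
    simp only
    rw [mul_pow]
    ring
  set q0 : ℝ := c m ^ k * u y0 with hq0def
  have hq0 : q0 ≠ 0 := mul_ne_zero (pow_ne_zero _ hmc) hu0
  have hqc : ContinuousAt q x0 := by
    have : ContinuousAt (fun x => u (G x)) x0 := ContinuousAt.comp (g := u) hu.continuousAt hGc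
    exact (hgc.pow k).mul this
  have hqx0 : q x0 = q0 := by simp only [hqdef, hg0, hq0def, ← hy0]
  have hqt : Tendsto q (𝓝[≠] x0) (𝓝 q0) := by
    rw [← hqx0]; exact hqc.tendsto.mono_left nhdsWithin_le_nhds
  -- order of `A - ψ y0`
  have hh : AnalyticAt ℝ (fun x => A x - ψ y0) x0 := hA.sub analyticAt_const
  obtain ⟨N, a, ha, ha0, hNa⟩ := hh.exists_eventuallyEq_pow_smul_nonzero_iff.2 (by
    intro h
    refine not_isBigO_of_limit hqt hq0 (p := m * k) ?_
    refine ((hflat (m * k + 1)).mono nhdsWithin_le_nhds).congr' ?_ EventuallyEq.rfl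
    filter_upwards [nhdsWithin_le_nhds h, nhdsWithin_le_nhds hψG] with x hx1 hx2
    rw [← hx2]
    have : A x = ψ y0 := by linarith
    rw [this])
  have hat : Tendsto a (𝓝[≠] x0) (𝓝 (a x0)) := ha.continuousAt.tendsto.mono_left nhdsWithin_le_nhds
  have hdiff : ∀ n : ℕ, (fun x => (x - x0) ^ (m * k) * q x - (x - x0) ^ N * a x) =O[𝓝[≠] x0]
      fun x => (x - x0) ^ n := by
    intro n
    refine ((hflat n).mono nhdsWithin_le_nhds).congr' ?_ EventuallyEq.rfl
    filter_upwards [nhdsWithin_le_nhds hNa, nhdsWithin_le_nhds hψG] with x hx1 hx2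
    rw [← hx2, ← smul_eq_mul ((x - x0) ^ N), ← hx1]
    ring
  have hN : m * k = N := exponents_eq hqt hq0 hat ha0 hdiff
  have hqa : ∀ n : ℕ, (fun x => q x - a x) =O[𝓝[≠] x0] fun x => (x - x0) ^ n := by
    intro n
    refine cancel_pow (p := m * k) ?_
    refine (hdiff (m * k + n)).congr_left fun x => ?_
    rw [← hN]; ring
  have haq : a x0 = q0 := by
    have h1 := tendsto_zero_of_isBigO (hqa 1)
    have h2 : Tendsto (fun x => q x - a x) (𝓝[≠] x0) (𝓝 (q0 - a x0)) := hqt.sub hat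
    have := tendsto_nhds_unique h1 h2
    linarith
  -- the implicit equation
  let Φ : ℝ × ℝ → ℝ := fun p => p.2 ^ k * u (y0 + (p.1 - x0) ^ m * p.2) - a p.1
  have hΦan : AnalyticAt ℝ Φ (x0, c m) := by
    have h1 : AnalyticAt ℝ (fun p : ℝ × ℝ => y0 + (p.1 - x0) ^ m * p.2) (x0, c m) :=
      analyticAt_const.add (((analyticAt_fst.sub analyticAt_const).pow m).mul analyticAt_snd)
    have h2 : AnalyticAt ℝ (fun p : ℝ × ℝ => u (y0 + (p.1 - x0) ^ m * p.2)) (x0, c m) := by
      refine AnalyticAt.fun_comp ?_ h1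
      simp only [sub_self, zero_pow hm0, zero_mul, add_zero]
      exact hu
    have h3 : AnalyticAt ℝ (fun p : ℝ × ℝ => a p.1) (x0, c m) :=
      AnalyticAt.fun_comp (g := a) (f := fun p : ℝ × ℝ => p.1) ha analyticAt_fst
    have h4 : AnalyticAt ℝ (fun p : ℝ × ℝ => p.2 ^ k) (x0, c m) := analyticAt_snd.pow k
    exact (h4.mul h2).sub h3
  have hΦcd : ContDiffAt ℝ ω Φ (x0, c m) := hΦan.contDiffAt
  have hω : (ω : WithTop ℕ∞) ≠ 0 := by simp
  have hΦ0 : Φ (x0, c m) = 0 := by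
    simp only [Φ, sub_self, zero_pow hm0, zero_mul, add_zero]
    rw [haq, hq0def, sub_self]
  have hΦs := hΦcd.hasStrictFDerivAt hω
  set κ : ℝ := k * c m ^ (k - 1) * u y0 with hκ
  have hκ0 : κ ≠ 0 :=
    mul_ne_zero (mul_ne_zero (Nat.cast_ne_zero.2 hk0) (pow_ne_zero _ hmc)) hu0
  have hpart : ∀ d : ℝ, fderiv ℝ Φ (x0, c m) (0, d) = κ * d := by
    intro d
    have h1 : HasDerivAt (fun s : ℝ => Φ (x0, s)) κ (c m) := by
      have e : (fun s : ℝ => Φ (x0, s)) = fun s => s ^ k * u y0 - a x0 := by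
        funext s
        simp only [Φ, sub_self, zero_pow hm0, zero_mul, add_zero]
      rw [e]
      have := ((hasDerivAt_pow k (c m)).mul_const (u y0)).sub_const (a x0)
      exact this
    have h2 : HasDerivAt (fun s : ℝ => ((x0, s) : ℝ × ℝ)) ((0, 1) : ℝ × ℝ) (c m) :=
      (hasDerivAt_const _ _).prodMk (hasDerivAt_id _)
    have h3 := hΦs.hasFDerivAt.comp_hasDerivAt (c m) h2
    have h4 : fderiv ℝ Φ (x0, c m) (0, 1) = κ := h3.unique h1
    have h5 : ((0, d) : ℝ × ℝ) = d • ((0, 1) : ℝ × ℝ) := by simp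
    rw [h5, map_smul, h4, smul_eq_mul, mul_comm]
  have hinv : ((fderiv ℝ Φ (x0, c m)) ∘L .inr ℝ ℝ ℝ).IsInvertible := by
    refine ⟨ContinuousLinearEquiv.smulLeft (Units.mk0 κ hκ0), ?_⟩
    ext
    simp [hpart]
  let Cf : ℝ → ℝ := hΦcd.implicitFunction hω hinv
  have hCf0 : Cf x0 = c m := hΦcd.implicitFunction_apply_self hω hinv
  have hCfan : AnalyticAt ℝ Cf x0 :=
    (hΦcd.contDiffAt_implicitFunction hω hinv).analyticAt
  have hCfeq : ∀ᶠ x in 𝓝 x0, Φ (x, Cf x) = 0 := by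
    have := hΦcd.eventually_apply_implicitFunction hω hinv
    rw [hΦ0] at this
    exact this
  -- comparison of `g` and `Cf`
  have hcmp : ∀ᶠ x in 𝓝[≠] x0, ‖g x - Cf x‖ ≤ 2 / |κ| * ‖q x - a x‖ := by
    have h1 := hΦs.isLittleO
    have h2 : Tendsto (fun x => (((x, g x), (x, Cf x)) : (ℝ × ℝ) × (ℝ × ℝ))) (𝓝[≠] x0)
        (𝓝 ((x0, c m), (x0, c m))) := by
      have hid : Tendsto (fun x : ℝ => x) (𝓝[≠] x0) (𝓝 x0) := nhdsWithin_le_nhds
      have hC : Tendsto Cf (𝓝[≠] x0) (𝓝 (c m)) := by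
        rw [← hCf0]; exact hCfan.continuousAt.tendsto.mono_left nhdsWithin_le_nhds
      exact (hid.prodMk_nhds hgt).prodMk_nhds (hid.prodMk_nhds hC)
    have h3 := (h1.comp_tendsto h2).bound (show 0 < |κ| / 2 by positivity)
    filter_upwards [h3, nhdsWithin_le_nhds hCfeq, ne_zero_punctured x0] with x hx1 hx2 hx3
    simp only [Function.comp_apply] at hx1
    have e1 : ((x, g x) : ℝ × ℝ) - (x, Cf x) = (0, g x - Cf x) := by simp
    rw [e1, hpart, hx2, sub_zero] at hx1
    have e2 : Φ (x, g x) = q x - a x := by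
      simp only [Φ, hg, hqdef]
      congr 3
      ring
    have e3 : ‖((0 : ℝ), g x - Cf x)‖ = |g x - Cf x| := by
      simp [Prod.norm_def]
    rw [e2, e3, Real.norm_eq_abs] at hx1
    have h5 : |κ| * |g x - Cf x| ≤ |q x - a x| + |κ| / 2 * |g x - Cf x| := by
      calc |κ| * |g x - Cf x| = |κ * (g x - Cf x)| := (abs_mul _ _).symm
        _ = |(q x - a x) - ((q x - a x) - κ * (g x - Cf x))| := by congr 1; ring
        _ ≤ |q x - a x| + |(q x - a x) - κ * (g x - Cf x)| := abs_sub _ _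
        _ ≤ _ := by linarith
    have hκpos : 0 < |κ| := abs_pos.2 hκ0
    rw [Real.norm_eq_abs, Real.norm_eq_abs, div_mul_eq_mul_div, le_div_iff₀ hκpos]
    nlinarith
  -- conclusion
  refine ⟨fun x => y0 + (x - x0) ^ m * Cf x, ?_, ?_⟩
  · have : AnalyticAt ℝ (fun x => (x - x0) ^ m) x0 := by fun_prop
    exact analyticAt_const.add (this.mul hCfan)
  · intro n
    have h1 : (fun x => g x - Cf x) =O[𝓝[≠] x0] fun x => (x - x0) ^ n :=
      (IsBigO.of_bound _ hcmp).trans (hqa n)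
    have h2 : (fun x => (x - x0) ^ m) =O[𝓝[≠] x0] fun _ => (1 : ℝ) := by
      have : ContinuousAt (fun x => (x - x0) ^ m) x0 := by fun_prop
      exact (this.tendsto.mono_left nhdsWithin_le_nhds).isBigO_one ℝ
    have h3 : (fun x => G x - (y0 + (x - x0) ^ m * Cf x)) =O[𝓝[≠] x0] fun x => (x - x0) ^ n := by
      refine ((h2.mul h1).congr_left fun x => ?_).congr_right fun x => by ring
      rw [mul_sub, hg]
      ring
    -- the point `x0` itself
    have h4 : (fun x => G x - (y0 + (x - x0) ^ m * Cf x)) =O[pure x0] fun x => (x - x0) ^ n := by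
      refine IsBigO.of_bound 0 ?_
      simp [hm0, ← hy0]
    have h5 := h3.sup h4
    rwa [nhdsNE_sup_pure] at h5

end Pool.Agent.Lib.MP_30394b_an
end
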