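import Mathlib

/-!
# A smooth function with a Pringsheim singularity at every point
-/

namespace Pool.Agent.Lib.MP_30394b_an

open Filter Topology Asymptotics Set
open scoped ContDiff Nat

/-- a super-exponentially increasing sequence of frequencies -/
noncomputable def freq : ℕ → ℝ
  | 0 => 1
  | (k + 1) => 2 ^ (k + 2) * (2 * freq k ^ (3 * k + 5) + 1 +
      ((k + 1 : ℕ) : ℝ) ^ (3 * k + 5) * ((3 * k + 5)! : ℝ))

theorem freq_ge_one (k : ℕ) : 1 ≤ freq k := by
  induction k with
  | zero => simp [freq]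
  | succ k ih =>
    rw [freq]
    have h1 : (1 : ℝ) ≤ 2 ^ (k + 2) := one_le_pow₀ (by norm_num)
    have h2 : (0 : ℝ) ≤ freq k ^ (3 * k + 5) := by positivity
    have h3 : (0 : ℝ) ≤ ((k + 1 : ℕ) : ℝ) ^ (3 * k + 5) * ((3 * k + 5)! : ℝ) := by positivity
    nlinarith

theorem freq_pos (k : ℕ) : 0 < freq k := lt_of_lt_of_le one_pos (freq_ge_one k)

theorem freq_le_succ (k : ℕ) : freq k ≤ freq (k + 1) := by
  rw [freq]
  have h1 : (1 : ℝ) ≤ 2 ^ (k + 2) := one_le_pow₀ (by norm_num)
  have h2 : freq k ≤ freq k ^ (3 * k + 5) := le_self_pow₀ (freq_ge_one k) (by omega)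
  have h3 : (0 : ℝ) ≤ ((k + 1 : ℕ) : ℝ) ^ (3 * k + 5) * ((3 * k + 5)! : ℝ) := by positivity
  have h4 := freq_pos k
  nlinarith

theorem freq_mono : Monotone freq := monotone_nat_of_le_succ freq_le_succ

/-- amplitudes -/
noncomputable def amp (k : ℕ) : ℝ := (freq k ^ (3 * k))⁻¹ * (1 / 2) ^ k

theorem amp_pos (k : ℕ) : 0 < amp k := by
  have := freq_pos k
  unfold amp
  positivity

theorem amp_le (k : ℕ) : amp k ≤ (1 / 2) ^ k := by
  unfold amp
  have h1 : (freq k ^ (3 * k))⁻¹ ≤ 1 := inv_le_one_of_one_le₀ (one_le_pow₀ (freq_ge_one k))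
  have h2 : (0 : ℝ) < (1 / 2) ^ k := by positivity
  nlinarith

theorem amp_mul_pow_le {k n : ℕ} (h : n ≤ 3 * k) : amp k * freq k ^ n ≤ (1 / 2) ^ k := by
  unfold amp
  have h0 := freq_pos k
  have h1 : (freq k ^ (3 * k))⁻¹ * freq k ^ n ≤ 1 := by
    rw [inv_mul_le_iff₀ (by positivity), mul_one]
    exact pow_le_pow_right₀ (freq_ge_one k) h
  have h2 : (0 : ℝ) < (1 / 2) ^ k := by positivity
  calc (freq k ^ (3 * k))⁻¹ * (1 / 2) ^ k * freq k ^ n
      = ((freq k ^ (3 * k))⁻¹ * freq k ^ n) * (1 / 2) ^ k := by ring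
    _ ≤ 1 * (1 / 2) ^ k := mul_le_mul_of_nonneg_right h1 h2.le
    _ = (1 / 2) ^ k := one_mul _

theorem amp_mul_pow_ge {k n : ℕ} (h : 3 * k + 1 ≤ n) : freq k * (1 / 2) ^ k ≤ amp k * freq k ^ n := by
  unfold amp
  have h0 := freq_pos k
  have h2 : (0 : ℝ) < (1 / 2) ^ k := by positivity
  obtain ⟨j, rfl⟩ : ∃ j, n = 3 * k + 1 + j := ⟨n - (3 * k + 1), by omega⟩
  have h3 : (freq k ^ (3 * k))⁻¹ * (1 / 2) ^ k * freq k ^ (3 * k + 1 + j)
      = freq k * (1 / 2) ^ k * freq k ^ j := by
    rw [pow_add, pow_add]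
    field_simp
  rw [h3]
  have h4 : 1 ≤ freq k ^ j := one_le_pow₀ (freq_ge_one k)
  have h5 : 0 ≤ freq k * (1 / 2) ^ k := by positivity
  nlinarith

/-- the terms of the series -/
noncomputable def term (k : ℕ) (x : ℝ) : ℝ := amp k * Real.cos (freq k * x)

theorem iteratedDeriv_term (k n : ℕ) : iteratedDeriv n (term k) =
    fun x => amp k * freq k ^ n * Real.cos (freq k * x + n * (Real.pi / 2)) := by
  induction n with
  | zero =>
    funext x
    simp [term]
  | succ n ih =>
    rw [iteratedDeriv_succ, ih]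
    funext x
    have h1 : HasDerivAt (fun x : ℝ => freq k * x + n * (Real.pi / 2)) (freq k) x := by
      have := ((hasDerivAt_id x).const_mul (freq k)).add_const (n * (Real.pi / 2))
      simpa using this
    have h2 := (h1.cos).const_mul (amp k * freq k ^ n)
    rw [h2.deriv]
    have e : freq k * x + ((n + 1 : ℕ) : ℝ) * (Real.pi / 2) =
        (freq k * x + n * (Real.pi / 2)) + Real.pi / 2 := by push_cast; ring
    rw [e, Real.cos_add_pi_div_two, pow_succ]
    ring

theorem contDiff_term (k : ℕ) : ContDiff ℝ ∞ (term k) := by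
  unfold term
  fun_prop

theorem norm_iteratedFDeriv_term_le (n k : ℕ) (x : ℝ) :
    ‖iteratedFDeriv ℝ n (term k) x‖ ≤ amp k * freq k ^ n := by
  rw [norm_iteratedFDeriv_eq_norm_iteratedDeriv, iteratedDeriv_term]
  have h0 : 0 < amp k * freq k ^ n := mul_pos (amp_pos k) (pow_pos (freq_pos k) n)
  rw [Real.norm_eq_abs, abs_mul, abs_of_pos h0]
  have := Real.abs_cos_le_one (freq k * x + n * (Real.pi / 2))
  nlinarith

theorem summable_bound (n : ℕ) : Summable fun k => amp k * freq k ^ n := by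
  refine Summable.of_norm_bounded_eventually_nat (g := fun k => (1 / 2 : ℝ) ^ k)
    (summable_geometric_of_lt_one (by norm_num) (by norm_num)) ?_
  filter_upwards [eventually_ge_atTop n] with k hk
  have h0 : 0 < amp k * freq k ^ n := mul_pos (amp_pos k) (pow_pos (freq_pos k) n)
  rw [Real.norm_eq_abs, abs_of_pos h0]
  exact amp_mul_pow_le (by omega)

/-- the singular function -/
noncomputable def sing (x : ℝ) : ℝ := ∑' k, term k x

theorem contDiff_sing : ContDiff ℝ ∞ sing :=
  contDiff_tsum (v := fun n k => amp k * freq k ^ n) (fun k => contDiff_term k)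
    (fun n _ => summable_bound n) (fun n k x _ => norm_iteratedFDeriv_term_le n k x)

theorem iteratedDeriv_sing (n : ℕ) (x : ℝ) : iteratedDeriv n sing x =
    ∑' k, amp k * freq k ^ n * Real.cos (freq k * x + n * (Real.pi / 2)) := by
  have h1 := iteratedFDeriv_tsum_apply (N := ⊤) (v := fun n k => amp k * freq k ^ n)
    (fun k => contDiff_term k) (fun n _ => summable_bound n)
    (fun n k x _ => norm_iteratedFDeriv_term_le n k x) (k := n) le_top x
  rw [iteratedDeriv_eq_iteratedFDeriv]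
  change (iteratedFDeriv ℝ n (fun y => ∑' k, term k y) x) (fun _ => 1) = _
  rw [h1]
  have hs : Summable fun k => iteratedFDeriv ℝ n (term k) x :=
    Summable.of_norm_bounded (summable_bound n) fun k => norm_iteratedFDeriv_term_le n k x
  rw [ContinuousMultilinearMap.tsum_eval hs]
  refine tsum_congr fun k => ?_
  rw [← iteratedDeriv_eq_iteratedFDeriv, iteratedDeriv_term]

/-- For every point and every `K` some derivative of order `n ≥ K` is at least `K^n n!`. -/
theorem sing_large (x : ℝ) (K : ℕ) :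
    ∃ n, K ≤ n ∧ (K : ℝ) ^ n * (n ! : ℝ) ≤ |iteratedDeriv n sing x| := by
  set k := K + 1 with hk
  -- choose the order
  have hchoice : ∃ n, (n = 3 * k + 1 ∨ n = 3 * k + 2) ∧
      1 / 2 ≤ |Real.cos (freq k * x + n * (Real.pi / 2))| := by
    set y := freq k * x + ((3 * k + 1 : ℕ) : ℝ) * (Real.pi / 2) with hy
    by_cases h : 1 / 2 ≤ |Real.cos y|
    · exact ⟨3 * k + 1, Or.inl rfl, h⟩
    · refine ⟨3 * k + 2, Or.inr rfl, ?_⟩
      have e : freq k * x + ((3 * k + 2 : ℕ) : ℝ) * (Real.pi / 2) = y + Real.pi / 2 := by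
        rw [hy]; push_cast; ring
      rw [e, Real.cos_add_pi_div_two, abs_neg]
      push Not at h
      by_contra h2
      push Not at h2
      have h3 := Real.sin_sq_add_cos_sq y
      rw [← sq_abs (Real.sin y), ← sq_abs (Real.cos y)] at h3
      have h4 := abs_nonneg (Real.sin y)
      have h5 := abs_nonneg (Real.cos y)
      nlinarith
  obtain ⟨n, hn, hcos⟩ := hchoice
  have hn1 : 3 * k + 1 ≤ n := by omega
  have hn2 : n ≤ 3 * k + 2 := by omega
  refine ⟨n, by omega, ?_⟩
  rw [iteratedDeriv_sing]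
  set t : ℕ → ℝ := fun j => amp j * freq j ^ n * Real.cos (freq j * x + n * (Real.pi / 2)) with ht
  have htb : ∀ j, |t j| ≤ amp j * freq j ^ n := by
    intro j
    have h0 : 0 < amp j * freq j ^ n := mul_pos (amp_pos j) (pow_pos (freq_pos j) n)
    rw [ht]
    simp only
    rw [abs_mul, abs_of_pos h0]
    have := Real.abs_cos_le_one (freq j * x + n * (Real.pi / 2))
    nlinarith
  have hts : Summable t := Summable.of_norm_bounded (summable_bound n) htb
  have hsplit : ∑' j, t j = ∑ j ∈ Finset.range k, t j + t k + ∑' j, t (j + (k + 1)) := by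
    rw [← Finset.sum_range_succ, hts.sum_add_tsum_nat_add]
  -- main term
  have hmain : freq k * (1 / 2) ^ (k + 1) ≤ |t k| := by
    have h0 : 0 < amp k * freq k ^ n := mul_pos (amp_pos k) (pow_pos (freq_pos k) n)
    rw [ht]
    simp only
    rw [abs_mul, abs_of_pos h0]
    have h1 := amp_mul_pow_ge hn1
    have h2 : 0 ≤ freq k * (1 / 2) ^ k := by have := freq_pos k; positivity
    calc freq k * (1 / 2) ^ (k + 1) = (freq k * (1 / 2) ^ k) * (1 / 2) := by rw [pow_succ]; ring
      _ ≤ (amp k * freq k ^ n) * |Real.cos (freq k * x + n * (Real.pi / 2))| :=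
          mul_le_mul h1 hcos (by norm_num) h0.le
  -- initial segment
  have hinit : |∑ j ∈ Finset.range k, t j| ≤ 2 * freq K ^ (3 * K + 5) := by
    have hb : ∀ j ∈ Finset.range k, |t j| ≤ (1 / 2) ^ j * freq K ^ (3 * K + 5) := by
      intro j hj
      have hjK : j ≤ K := by have := Finset.mem_range.1 hj; omega
      refine (htb j).trans ?_
      have h1 : freq j ^ n ≤ freq K ^ n := pow_le_pow_left₀ (freq_pos j).le (freq_mono hjK) n
      have h2 : freq K ^ n ≤ freq K ^ (3 * K + 5) :=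
        pow_le_pow_right₀ (freq_ge_one K) (by omega)
      exact mul_le_mul (amp_le j) (h1.trans h2) (pow_nonneg (freq_pos j).le n) (by positivity)
    calc |∑ j ∈ Finset.range k, t j| ≤ ∑ j ∈ Finset.range k, |t j| :=
          Finset.abs_sum_le_sum_abs _ _
      _ ≤ ∑ j ∈ Finset.range k, (1 / 2) ^ j * freq K ^ (3 * K + 5) := Finset.sum_le_sum hb
      _ = (∑ j ∈ Finset.range k, (1 / 2 : ℝ) ^ j) * freq K ^ (3 * K + 5) := by
          rw [Finset.sum_mul]
      _ ≤ 2 * freq K ^ (3 * K + 5) := by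
          refine mul_le_mul_of_nonneg_right ?_ (pow_nonneg (freq_pos K).le _)
          have hsum : Summable fun j : ℕ => (1 / 2 : ℝ) ^ j :=
            summable_geometric_of_lt_one (by norm_num) (by norm_num)
          have := hsum.sum_le_tsum (Finset.range k) (fun j _ => by positivity)
          rwa [tsum_geometric_two] at this
  -- tail
  have htail : |∑' j, t (j + (k + 1))| ≤ 1 := by
    have hg : HasSum (fun j : ℕ => (1 / 2 : ℝ) * (1 / 2 : ℝ) ^ j) (1 / 2 * 2) :=
      hasSum_geometric_two.mul_left _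
    rw [← Real.norm_eq_abs]
    have := tsum_of_norm_bounded (f := fun j => t (j + (k + 1))) hg ?_
    · linarith
    intro j
    rw [Real.norm_eq_abs]
    refine (htb _).trans ((amp_mul_pow_le (by omega)).trans ?_)
    rw [← pow_succ']
    refine pow_le_pow_of_le_one (by norm_num) (by norm_num) ?_
    omega
  -- the frequency is large
  have hfreq : freq k * (1 / 2) ^ (k + 1) = 2 * freq K ^ (3 * K + 5) + 1 +
      ((K + 1 : ℕ) : ℝ) ^ (3 * K + 5) * ((3 * K + 5)! : ℝ) := by
    rw [hk, freq]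
    have : (2 : ℝ) ^ (K + 2) * (1 / 2) ^ (K + 1 + 1) = 1 := by
      rw [show K + 1 + 1 = K + 2 from rfl, ← mul_pow]; norm_num
    calc _ = ((2 : ℝ) ^ (K + 2) * (1 / 2) ^ (K + 1 + 1)) * (2 * freq K ^ (3 * K + 5) + 1 +
      ((K + 1 : ℕ) : ℝ) ^ (3 * K + 5) * ((3 * K + 5)! : ℝ)) := by ring
      _ = _ := by rw [this, one_mul]
  have hfin : (K : ℝ) ^ n * (n ! : ℝ) ≤
      ((K + 1 : ℕ) : ℝ) ^ (3 * K + 5) * ((3 * K + 5)! : ℝ) := by
    have h1 : (K : ℝ) ^ n ≤ ((K + 1 : ℕ) : ℝ) ^ n :=
      pow_le_pow_left₀ (by positivity) (by push_cast; linarith) n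
    have h2 : ((K + 1 : ℕ) : ℝ) ^ n ≤ ((K + 1 : ℕ) : ℝ) ^ (3 * K + 5) :=
      pow_le_pow_right₀ (by push_cast; linarith [Nat.cast_nonneg (α := ℝ) K]) (by omega)
    have h3 : (n ! : ℝ) ≤ ((3 * K + 5)! : ℝ) := by
      exact_mod_cast Nat.factorial_le (by omega)
    exact mul_le_mul (h1.trans h2) h3 (by positivity) (by positivity)
  rw [hsplit]
  set P := ∑ j ∈ Finset.range k, t j
  set Q := t k
  set R := ∑' j, t (j + (k + 1))
  have h7 : |Q| ≤ |P + Q + R| + |P| + |R| := by
    have : Q = (P + Q + R) + (-P) + (-R) := by ring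
    calc |Q| = |(P + Q + R) + (-P) + (-R)| := by rw [← this]
      _ ≤ |P + Q + R| + |(-P)| + |(-R)| := abs_add_three _ _ _
      _ = |P + Q + R| + |P| + |R| := by rw [abs_neg, abs_neg]
  linarith

end Pool.Agent.Lib.MP_30394b_an
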