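import Pool.Agent.Lib.MP_30394b_an.Core
import Pool.Agent.Lib.MP_30394b_an.Sing

/-!
# Exponential sums of the singular function are singular
-/

namespace Pool.Agent.Lib.MP_30394b_an

open Filter Topology Asymptotics Set
open scoped ContDiff Nat

/-- the exponential sum `y ↦ ∑ b γ exp (γ y)` -/
noncomputable def expSum (b : ℝ →₀ ℝ) (y : ℝ) : ℝ := b.sum fun γ c => c * Real.exp (γ * y)

theorem analyticAt_expSum (b : ℝ →₀ ℝ) (y : ℝ) : AnalyticAt ℝ (expSum b) y := by
  have h : expSum b = fun y => ∑ γ ∈ b.support, b γ * Real.exp (γ * y) := by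
    funext y; rfl
  rw [h]
  refine Finset.analyticAt_fun_sum _ fun γ _ => ?_
  fun_prop

theorem contDiff_expSum (b : ℝ →₀ ℝ) : ContDiff ℝ ∞ (expSum b) := by
  have h : expSum b = fun y => ∑ γ ∈ b.support, b γ * Real.exp (γ * y) := by
    funext y; rfl
  rw [h]
  refine ContDiff.sum fun γ _ => ?_
  fun_prop

/-- the character `y ↦ exp (γ y)` -/
noncomputable def char (γ : ℝ) : Multiplicative ℝ →* ℝ where
  toFun y := Real.exp (γ * y.toAdd)
  map_one' := by simp
  map_mul' x y := by simp [mul_add, Real.exp_add]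

theorem char_injective : Function.Injective char := by
  intro a b h
  have h1 : char a (Multiplicative.ofAdd 1) = char b (Multiplicative.ofAdd 1) := by rw [h]
  simpa [char] using h1

theorem linearIndependent_char : LinearIndependent ℝ (fun γ : ℝ => (char γ : Multiplicative ℝ → ℝ)) :=
  (linearIndependent_monoidHom (Multiplicative ℝ) ℝ).comp char char_injective

theorem eq_zero_of_expSum_eq_zero {b : ℝ →₀ ℝ} (h : ∀ y, expSum b y = 0) : b = 0 := by
  refine (linearIndependent_iff.1 linearIndependent_char) b ?_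
  funext y
  have h1 := h y.toAdd
  rw [Finsupp.linearCombination_apply, Finsupp.sum, Finset.sum_apply]
  simp only [Pi.smul_apply, smul_eq_mul, Pi.zero_apply]
  exact h1

theorem expSum_not_locally_const {b : ℝ →₀ ℝ} (hb : ∃ γ, γ ≠ 0 ∧ b γ ≠ 0) (y0 : ℝ) :
    ¬ ∀ᶠ y in 𝓝 y0, expSum b y = expSum b y0 := by
  intro hev
  have han : AnalyticOnNhd ℝ (expSum b) univ := fun y _ => analyticAt_expSum b y
  have hconst : AnalyticOnNhd ℝ (fun _ : ℝ => expSum b y0) univ := fun y _ => analyticAt_const
  have heq := han.eqOn_of_preconnected_of_eventuallyEq hconst isPreconnected_univ (mem_univ y0) hev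
  set b' : ℝ →₀ ℝ := b - Finsupp.single 0 (expSum b y0) with hb'
  have h0 : ∀ y, expSum b' y = 0 := by
    intro y
    have h1 : expSum b' y = expSum b y - expSum (Finsupp.single 0 (expSum b y0)) y := by
      rw [hb']
      unfold expSum
      rw [Finsupp.sum_sub_index]
      intro γ c d
      ring
    rw [h1]
    have h2 : expSum (Finsupp.single 0 (expSum b y0)) y = expSum b y0 := by
      generalize expSum b y0 = c0
      unfold expSum
      rw [Finsupp.sum_single_index] <;> simp
    rw [h2]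
    have := heq (mem_univ y)
    simp only at this
    linarith
  have h1 := eq_zero_of_expSum_eq_zero h0
  obtain ⟨γ, hγ0, hγ⟩ := hb
  have h2 : b' γ = 0 := by rw [h1]; rfl
  rw [hb', Finsupp.sub_apply, Finsupp.single_eq_of_ne hγ0, sub_zero] at h2
  exact hγ h2

/-- **Key lemma.** A nonconstant exponential sum of `sing` does not have geometrically bounded
Taylor coefficients at any point. -/
theorem key {b : ℝ →₀ ℝ} (hb : ∃ γ, γ ≠ 0 ∧ b γ ≠ 0) (x0 : ℝ) {C M : ℝ} (hM : 0 < M)
    (h : ∀ n, |iteratedDeriv n (fun x => expSum b (sing x)) x0 / (n ! : ℝ)| ≤ C * M ^ n) :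
    False := by
  have hH : ContDiff ℝ ∞ (fun x => expSum b (sing x)) := (contDiff_expSum b).comp contDiff_sing
  obtain ⟨A, hA, hAas⟩ := exists_analyticAt_of_bound x0 hM h
  have hflat : Flat (fun x => expSum b (sing x) - A x) x0 := (asym_of_contDiff hH x0).flat_sub hAas
  obtain ⟨B, hB, hBflat⟩ := core (asym_of_contDiff contDiff_sing x0) (analyticAt_expSum b _)
    (expSum_not_locally_const hb _) hA hflat
  obtain ⟨c, hc, C', M', hM', hbound⟩ := asym_of_analyticAt hB
  have hs := (asym_of_contDiff contDiff_sing x0).congr_flat hBflat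
  have hceq := hc.unique hs
  -- contradiction with the size of the derivatives of `sing`
  obtain ⟨K, hK⟩ := exists_nat_ge (max (2 * M') (C' + 1))
  obtain ⟨n, hnK, hn⟩ := sing_large x0 K
  have h1 := hbound n
  rw [hceq] at h1
  simp only at h1
  rw [abs_div, Nat.abs_cast, div_le_iff₀ (by positivity)] at h1
  have h2 : (K : ℝ) ^ n * (n ! : ℝ) ≤ C' * M' ^ n * (n ! : ℝ) := hn.trans h1
  have hfac : (0 : ℝ) < (n ! : ℝ) := by positivity
  have h3 : (K : ℝ) ^ n ≤ C' * M' ^ n := le_of_mul_le_mul_right h2 hfac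
  have h4 : (2 * M') ^ n ≤ (K : ℝ) ^ n :=
    pow_le_pow_left₀ (by positivity) ((le_max_left _ _).trans hK) n
  have h5 : (2 : ℝ) ^ n * M' ^ n ≤ C' * M' ^ n := by rw [← mul_pow]; linarith
  have h6 : (2 : ℝ) ^ n ≤ C' := le_of_mul_le_mul_right h5 (by positivity)
  have h7 : (K : ℝ) ≤ 2 ^ n := by
    have : (n : ℝ) < 2 ^ n := by exact_mod_cast Nat.lt_two_pow_self
    have h8 : (K : ℝ) ≤ n := by exact_mod_cast hnK
    linarith
  have h9 : C' + 1 ≤ K := (le_max_right _ _).trans hK
  linarith

end Pool.Agent.Lib.MP_30394b_an
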